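import Pool.Agent.H.MP_70f359_co.Graph

namespace Pool.Agent.H.MP_70f359_co

open W

def rk : Fin 8 → Fin 8 → ℕ :=
  ![![0,0,0,0,0,0,0,0], ![0,0,0,0,0,3,3,0], ![5,0,0,0,5,5,5,5], ![0,0,0,0,0,0,5,0],
    ![1,0,0,0,0,0,0,0], ![0,0,0,0,0,0,2,0], ![0,0,0,0,0,0,0,0], ![4,0,0,0,4,4,4,0]]

lemma tab1 : ∀ x y : Fin 8, 0 < rk x y → y ≠ 1 ∧ y ≠ 2 ∧ y ≠ 3 ∧ (y = 0 → NF x 1) := by decide
lemma tab2 : ∀ x y y' : Fin 8, 0 < rk x y → NF y y' → ¬ NF x y' →
    ∃ x', NF x x' ∧ 0 < rk x' y' ∧ rk x' y' < rk x y := by decide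
lemma tab3 : ∀ y : Fin 8, A 3 y = true → y ≠ 2 → 0 < rk 2 y := by decide
lemma tab4 : ∀ y : Fin 8, ¬ NF 1 y → y ≠ 3 → 0 < rk 2 y := by decide

inductive CM : Type
  | L (j : ℤ) : CM
  | M (j : ℤ) : CM
  | D (j : ℤ) (k : ℕ) : CM
  | B (j : ℤ) (k : ℕ) (x y : Fin 8) : CM
  | E (j : ℤ) : CM

def cpos : CM → W
  | .L j => P j
  | .M j => P j
  | .D j k => e j k 1
  | .B j k x _ => e j k x
  | .E j => P j

def cinv : CM → W → Prop
  | .L _, _ => True
  | .M j, r => j ≤ bl r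
  | .D j k, r => ∃ i y, r = e j i y ∧ (k ≤ i ∨ (k = i + 1 ∧ A 3 y = true))
  | .B j k x y, r => 0 < rk x y ∧ Step G (e j k y) r
  | .E j, r => j + 1 ≤ bl r

abbrev T5 := ℕ × ℕ × ℕ × ℕ × ℕ

def lt5 (a b : T5) : Prop :=
  a.1 < b.1 ∨ (a.1 = b.1 ∧ (a.2.1 < b.2.1 ∨ (a.2.1 = b.2.1 ∧ (a.2.2.1 < b.2.2.1 ∨
    (a.2.2.1 = b.2.2.1 ∧ (a.2.2.2.1 < b.2.2.2.1 ∨ (a.2.2.2.1 = b.2.2.2.1 ∧ a.2.2.2.2 < b.2.2.2.2)))))))

lemma lt5_wf : WellFounded lt5 := by
  let f : T5 → ℕ ×ₗ ℕ ×ₗ ℕ ×ₗ ℕ ×ₗ ℕ := fun a =>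
    toLex (a.1, toLex (a.2.1, toLex (a.2.2.1, toLex (a.2.2.2.1, a.2.2.2.2))))
  have hw : WellFounded (InvImage (· < ·) f) := InvImage.wf f wellFounded_lt
  refine Subrelation.wf ?_ hw
  intro a b h
  simpa only [InvImage, f, Prod.Lex.toLex_lt_toLex, lt5] using h

def ph (x : W) (j : ℤ) (s c1 c2 : ℕ) : T5 :=
  if bl x < j then (0, 0, 0, 0, 0) else (0, (bl x - j).toNat + 1, s, c1, c2)

def cmu (x : W) : CM → T5
  | .L j => (1, (j - bl x).toNat, 0, 0, 0)
  | .M j => ph x j 3 0 0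
  | .D j k => ph x j 2 (lev x + 2 - k) 0
  | .B j k a b => ph x j 1 k (rk a b)
  | .E j => ph x j 0 0 0

lemma ph_same {x r : W} {j : ℤ} (hr : j ≤ bl r) {s c1 c2 s' c1' c2' : ℕ}
    (h : s' < s ∨ (s' = s ∧ (c1' < c1 ∨ (c1' = c1 ∧ c2' < c2)))) :
    lt5 (ph x j s' c1' c2') (ph x j s c1 c2) ∨ (ph x j s' c1' c2' = ph x j s c1 c2 ∧ r ≠ x) := by
  unfold ph
  split_ifs with h1
  · right
    refine ⟨rfl, ?_⟩
    rintro rfl
    omega
  · left
    simp only [lt5, true_and]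
    omega

lemma ph_next {x r : W} {j : ℤ} (hr : j ≤ bl r) {s c1 c2 s' c1' c2' : ℕ} :
    lt5 (ph x (j + 1) s' c1' c2') (ph x j s c1 c2) ∨
      (ph x (j + 1) s' c1' c2' = ph x j s c1 c2 ∧ r ≠ x) := by
  unfold ph
  split_ifs with h1 h2 h2
  · right
    refine ⟨rfl, ?_⟩
    rintro rfl
    omega
  · left
    simp only [lt5, true_and]
    omega
  · omega
  · left
    simp only [lt5, true_and]
    omega

lemma stay_right {j : ℤ} {r r' : W} (h : j ≤ bl r) (hne : r ≠ P j) (hs : Step G r r') :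
    j ≤ bl r' := by
  by_contra hlt
  obtain ⟨h1, h2⟩ := cut hs.symm (by omega)
  apply hne
  rw [h1]
  congr 1
  omega

lemma bl_ge (j : ℤ) (k : ℕ) (a : Fin 8) : j ≤ bl (e j k a) := by
  have := bl_e j k a
  omega

lemma cstep (m : CM) (r : W) (hi : cinv m r) (hn : ¬ Step G (cpos m) r) :
    ∃ m', Step G (cpos m) (cpos m') ∧ (∀ r', Step G r r' → cinv m' r') ∧
      ∀ x, lt5 (cmu x m') (cmu x m) ∨ (cmu x m' = cmu x m ∧ r ≠ x) := by
  cases m with
  | L j =>
    by_cases h : bl r < j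
    · refine ⟨.L (j - 1), ?_, fun _ _ => trivial, fun x => ?_⟩
      · have := adjP (j - 1)
        rw [sub_add_cancel] at this
        exact Or.inr this.symm
      · by_cases h1 : bl x < j
        · left
          simp only [lt5, cmu, true_and]
          omega
        · right
          refine ⟨?_, ?_⟩
          · simp only [cmu, Prod.mk.injEq, true_and, and_true]
            omega
          · rintro rfl
            omega
    · refine ⟨.M j, Step.rfl' _, fun r' hr' => ?_, fun x => Or.inl ?_⟩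
      · exact stay_right (by omega) (fun h => hn (Or.inl h.symm)) hr'
      · simp only [cmu, ph]
        split_ifs <;> simp [lt5]
  | M j =>
    simp only [cinv, cpos] at hi hn
    by_cases h : j + 1 ≤ bl r
    · refine ⟨.M (j + 1), Or.inr (adjP j), fun r' hr' => ?_, fun x => ph_next hi⟩
      exact stay_right h (fun h => hn (h ▸ Or.inr (adjP j))) hr'
    · refine ⟨.D j 0, Step.rfl' _, fun r' hr' => ?_, fun x => ph_same hi (by omega)⟩
      obtain ⟨j', k, a, ha, rfl⟩ := rep r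
      have hj : j' = j := by
        have := bl_e j' k a
        omega
      subst hj
      rcases nbr hr' with ⟨b, -, rfl⟩ | ⟨h4, -⟩ | ⟨-, k', b, rfl, -, rfl⟩ |
        ⟨-, b, -, rfl⟩ | ⟨-, b, -, rfl⟩ | ⟨h4, -⟩ | ⟨rfl, rfl, -⟩
      · exact ⟨_, _, rfl, Or.inl (Nat.zero_le _)⟩
      · exact absurd h4 ha
      · exact ⟨_, _, rfl, Or.inl (Nat.zero_le _)⟩
      · exact ⟨_, _, rfl, Or.inl (Nat.zero_le _)⟩
      · exact ⟨_, _, rfl, Or.inl (Nat.zero_le _)⟩
      · exact absurd h4 ha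
      · exact absurd (Step.rfl' _) hn
  | D j k =>
    simp only [cinv, cpos] at hi hn
    obtain ⟨i, y, rfl, hk | ⟨rfl, hy⟩⟩ := hi
    · by_cases h : i = k ∧ y ≠ 3
      · obtain ⟨rfl, hy⟩ := h
        refine ⟨.B j i 2 y, step_e j i (by decide), fun r' hr' => ⟨?_, hr'⟩,
          fun x => ph_same (bl_ge _ _ _) (by omega)⟩
        exact tab4 y (fun h => hn (step_e j i h)) hy
      · have h2 : ∃ i' y', k + 1 ≤ i' ∧ e j i y = e j i' y' := by
          by_cases h3 : i = k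
          · have h4 : y = 3 := by
              by_contra h5
              exact h ⟨h3, h5⟩
            subst h3 h4
            exact ⟨i + 1, 0, le_rfl, rfl⟩
          · exact ⟨i, y, by omega, rfl⟩
        refine ⟨.D j (k + 1), step_e j k (a := 1) (b := 2) (by decide), fun r' hr' => ?_, fun x => ?_⟩
        · obtain ⟨i', y', h3, h4⟩ := h2
          rw [h4] at hr' hn
          rcases nbr hr' with ⟨b, -, rfl⟩ | ⟨-, k', b, rfl, hb, rfl⟩ | ⟨rfl, k', b, rfl, -, rfl⟩ |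
            ⟨-, b, -, rfl⟩ | ⟨-, b, -, rfl⟩ | ⟨-, h5, -⟩ | ⟨-, h5, -⟩
          · exact ⟨_, _, rfl, Or.inl h3⟩
          · by_cases h6 : k + 1 ≤ k'
            · exact ⟨_, _, rfl, Or.inl h6⟩
            · exact ⟨_, _, rfl, Or.inr ⟨by omega, hb⟩⟩
          · by_cases h6 : k + 1 ≤ k'
            · exact ⟨_, _, rfl, Or.inl h6⟩
            · obtain rfl : k' = k := by omega
              exact absurd (step_e j k' (a := 1) (b := 2) (by decide)) hn
          · exact ⟨_, _, rfl, Or.inl (by omega)⟩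
          · exact ⟨_, _, rfl, Or.inl (by omega)⟩
          · omega
          · omega
        · by_cases h5 : k < lev x + 2
          · exact ph_same (bl_ge _ _ _) (by omega)
          · right
            refine ⟨?_, ?_⟩
            · simp only [cmu]
              congr 1
              omega
            · rintro rfl
              have := lev_e j i y
              omega
    · refine ⟨.B j i 2 y, Step.rfl' _, fun r' hr' => ⟨?_, hr'⟩,
        fun x => ph_same (bl_ge _ _ _) (by omega)⟩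
      refine tab3 y hy ?_
      rintro rfl
      exact hn (Step.rfl' _)
  | B j k a y =>
    simp only [cinv, cpos] at hi hn
    obtain ⟨hrk, hs⟩ := hi
    obtain ⟨t1, t2, t3, t0⟩ := tab1 a y hrk
    rcases nbr hs with ⟨b, hb, rfl⟩ | ⟨rfl, k', b, rfl, hb, rfl⟩ | ⟨h4, -⟩ |
      ⟨h4, -⟩ | ⟨h4, -⟩ | ⟨rfl, rfl, b, hb, rfl⟩ | ⟨h4, -⟩
    · obtain ⟨a', h1, h2, h3⟩ := tab2 a y b hrk hb (fun h => hn (step_e j k h))
      exact ⟨.B j k a' b, step_e j k h1, fun r' hr' => ⟨h2, hr'⟩,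
        fun x => ph_same (bl_ge _ _ _) (by omega)⟩
    · refine ⟨.B j k' 2 b, step_e j (k' + 1) (t0 rfl), fun r' hr' => ⟨?_, hr'⟩,
        fun x => ph_same (bl_ge _ _ _) (by omega)⟩
      refine tab3 b hb ?_
      rintro rfl
      exact hn (step_e j (k' + 1) (t0 rfl))
    · exact absurd h4 t1
    · exact absurd h4 t3
    · exact absurd h4 t2
    · have h5 := bl_ge (j + 1) 0 b
      refine ⟨.E j, step_e j 0 (t0 rfl), fun r' hr' => ?_,
        fun x => ph_same (by omega) (by omega)⟩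
      refine stay_right h5 (fun h => ?_) hr'
      exact (adj_e (j + 1) 0 hb).ne h.symm
    · exact absurd h4 t1
  | E j =>
    simp only [cinv, cpos] at hi hn
    refine ⟨.M (j + 1), Or.inr (adjP j), fun r' hr' => ?_, fun x => ph_next (by omega)⟩
    exact stay_right hi (fun h => hn (h ▸ Or.inr (adjP j))) hr'

theorem weak : WeakCopWin G :=
  cop_machine lt5 lt5_wf cpos cinv cmu (.L 0) (fun _ => trivial) cstep

end Pool.Agent.H.MP_70f359_co
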