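import Mathlib

namespace Pool.Agent.H.MP_70f359_co

open Classical

variable {V : Type} (G : SimpleGraph V)

def Step (u v : V) : Prop := u = v ∨ G.Adj u v

def IsWalk (x : ℕ → V) : Prop := ∀ k, Step G (x k) (x (k + 1))

def Caught (c r : ℕ → V) : Prop := ∃ k, c k = r k ∨ c (k + 1) = r k

def WeakCopWin : Prop :=
  ∃ (c0 : V) (f : List V → V), ∀ r : ℕ → V, IsWalk G r → ∀ c : ℕ → V, c 0 = c0 →
    (∀ k, c (k + 1) = f ((List.range (k + 1)).map r)) →
    IsWalk G c ∧ (Caught c r ∨ ∀ x, {k | r k = x}.Finite)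

def DoubleLongReturn : Prop :=
  ∀ c0 : V, ∃ v : V, ∀ m n : ℕ, 0 < m → 0 < n → ∃ g : List V → V,
    ∀ c : ℕ → V, IsWalk G c → c 0 = c0 → ∀ r : ℕ → V, r 0 = v →
      (∀ k, r (k + 1) = g ((List.range (k + 2)).map c)) →
      IsWalk G r ∧ ¬ Caught c r ∧
        ((Set.range r).Finite ∨ ∃ t s, m ≤ t ∧ t + n ≤ s ∧ r t = v ∧ r s = v)

variable {G}

lemma Step.rfl' (u : V) : Step G u u := Or.inl rfl

lemma Step.symm {u v : V} (h : Step G u v) : Step G v u := by
  rcases h with h | h
  · exact Or.inl h.symm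
  · exact Or.inr h.symm

lemma fin_of_wf {α : Type} (lt : α → α → Prop) (hwf : WellFounded lt) (a : ℕ → α) (p : ℕ → Prop)
    (h : ∀ k, lt (a (k + 1)) (a k) ∨ (a (k + 1) = a k ∧ ¬ p k)) : {k | p k}.Finite := by
  obtain ⟨z, ⟨k0, rfl⟩, hz⟩ := hwf.has_min (Set.range a) ⟨a 0, 0, rfl⟩
  have key : ∀ d, a (k0 + d) = a k0 := by
    intro d
    induction d with
    | zero => rfl
    | succ d ih =>
      rcases h (k0 + d) with h1 | h1
      · exact absurd (ih ▸ h1) (hz _ ⟨_, rfl⟩)
      · rw [← add_assoc, h1.1, ih]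
  refine (Set.finite_lt_nat k0).subset ?_
  intro k hk
  by_contra hlt
  simp only [Set.mem_ofPred_eq, not_lt] at hlt hk
  obtain ⟨d, rfl⟩ := Nat.exists_eq_add_of_le hlt
  rcases h (k0 + d) with h1 | h1
  · rw [key d] at h1
    exact hz _ ⟨_, rfl⟩ h1
  · exact h1.2 hk

lemma foldl_range {M : Type} (δ : M → V → M) (m0 : M) (r : ℕ → V) (k : ℕ) :
    ((List.range (k + 1)).map r).foldl δ m0 = δ (((List.range k).map r).foldl δ m0) (r k) := by
  rw [List.range_succ, List.map_append, List.foldl_append]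
  rfl

theorem cop_machine {M α : Type} (lt : α → α → Prop) (hwf : WellFounded lt) (pos : M → V)
    (Inv : M → V → Prop) (μ : V → M → α) (m0 : M) (h0 : ∀ r, Inv m0 r)
    (step : ∀ m r, Inv m r → ¬ Step G (pos m) r → ∃ m', Step G (pos m) (pos m') ∧
      (∀ r', Step G r r' → Inv m' r') ∧
      ∀ x, lt (μ x m') (μ x m) ∨ (μ x m' = μ x m ∧ r ≠ x)) : WeakCopWin G := by
  choose nx hnx using step
  let δ : M ⊕ V → V → M ⊕ V := fun s r =>
    match s with
    | Sum.inr v => Sum.inr v
    | Sum.inl m => if h : Step G (pos m) r then Sum.inr r else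
        if h' : Inv m r then Sum.inl (nx m r h' h) else Sum.inl m
  let ps : M ⊕ V → V := Sum.elim pos id
  have hδ : ∀ s r, Step G (ps s) (ps (δ s r)) := by
    intro s r
    cases s with
    | inr v => exact Step.rfl' _
    | inl m =>
      by_cases h : Step G (pos m) r
      · simp only [δ, dif_pos h]; exact h
      · by_cases h' : Inv m r
        · simp only [δ, dif_neg h, dif_pos h']; exact (hnx m r h' h).1
        · simp only [δ, dif_neg h, dif_neg h']; exact Step.rfl' _
  refine ⟨pos m0, fun L => ps (L.foldl δ (Sum.inl m0)), ?_⟩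
  intro r hr c hc0 hc
  let s : ℕ → M ⊕ V := fun k => ((List.range k).map r).foldl δ (Sum.inl m0)
  have hs : ∀ k, s (k + 1) = δ (s k) (r k) := fun k => foldl_range δ _ r k
  have hcs : ∀ k, c k = ps (s k) := by
    intro k
    cases k with
    | zero => exact hc0
    | succ k => exact hc k
  refine ⟨fun k => by rw [hcs, hcs, hs]; exact hδ _ _, ?_⟩
  by_cases hcau : Caught c r
  · exact Or.inl hcau
  right
  have hI : ∀ k, ∃ m, s k = Sum.inl m ∧ Inv m (r k) := by
    intro k
    induction k with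
    | zero => exact ⟨m0, rfl, h0 _⟩
    | succ k ih =>
      obtain ⟨m, hm, hi⟩ := ih
      by_cases h : Step G (pos m) (r k)
      · exfalso
        apply hcau
        refine ⟨k, Or.inr ?_⟩
        rw [hcs, hs, hm]
        simp only [δ, dif_pos h]; rfl
      · refine ⟨nx m (r k) hi h, ?_, (hnx m (r k) hi h).2.1 _ (hr k)⟩
        rw [hs, hm]
        simp only [δ, dif_neg h, dif_pos hi]
  choose mm hmm hI using hI
  intro x
  refine fin_of_wf lt hwf (fun k => μ x (mm k)) (fun k => r k = x) ?_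
  intro k
  by_cases h : Step G (pos (mm k)) (r k)
  · exfalso
    apply hcau
    refine ⟨k, Or.inr ?_⟩
    rw [hcs, hs, hmm]
    simp only [δ, dif_pos h]; rfl
  · have e1 : mm (k + 1) = nx (mm k) (r k) (hI k) h := by
      have := hmm (k + 1)
      rw [hs, hmm k] at this
      simp only [δ, dif_neg h, dif_pos (hI k)] at this
      exact (Sum.inl.inj this).symm
    simp only [e1]
    exact (hnx (mm k) (r k) (hI k) h).2.2 x

theorem rob_machine {M : Type} (pos : M → V) (Inv : M → V → Prop) (Prog : M → M → Prop)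
    (m0 : M) (c0 : V) (h0 : ¬ Step G c0 (pos m0)) (h1 : ∀ c', Step G c0 c' → Inv m0 c')
    (step : ∀ m c, Inv m c → ∃ m', Step G (pos m) (pos m') ∧ ¬ Step G c (pos m') ∧
      (∀ c', Step G c c' → Inv m' c') ∧ Prog m m') :
    ∃ g : List V → V, ∀ c : ℕ → V, IsWalk G c → c 0 = c0 → ∀ r : ℕ → V, r 0 = pos m0 →
      (∀ k, r (k + 1) = g ((List.range (k + 2)).map c)) →
      IsWalk G r ∧ ¬ Caught c r ∧ ∃ mm : ℕ → M, mm 0 = m0 ∧ (∀ k, r k = pos (mm k)) ∧
        ∀ k, Prog (mm k) (mm (k + 1)) := by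
  choose nx hnx using step
  let δ : Option M → V → Option M := fun s c =>
    match s with
    | none => some m0
    | some m => if h : Inv m c then some (nx m c h) else some m
  refine ⟨fun L => pos ((L.foldl δ none).getD m0), ?_⟩
  intro c hc hc0 r hr0 hr
  let s : ℕ → Option M := fun k => ((List.range k).map c).foldl δ none
  have hs : ∀ k, s (k + 1) = δ (s k) (c k) := fun k => foldl_range δ _ c k
  have hI : ∀ k, ∃ m, s (k + 1) = some m ∧ Inv m (c (k + 1)) ∧ ¬ Step G (c k) (pos m) := by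
    intro k
    induction k with
    | zero => exact ⟨m0, rfl, h1 _ (hc0 ▸ hc 0), hc0 ▸ h0⟩
    | succ k ih =>
      obtain ⟨m, hm, hi, -⟩ := ih
      refine ⟨nx m _ hi, ?_, (hnx m _ hi).2.2.1 _ (hc (k + 1)), (hnx m _ hi).2.1⟩
      rw [hs, hm]
      simp only [δ, dif_pos hi]
  choose mm hmm hI hN using hI
  have hm0 : mm 0 = m0 := by
    have := hmm 0
    exact (Option.some.inj this).symm
  have hrm : ∀ k, r k = pos (mm k) := by
    intro k
    cases k with
    | zero => rw [hm0]; exact hr0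
    | succ k =>
      rw [hr k]
      change pos ((s (k + 2)).getD m0) = _
      rw [hmm (k + 1)]; rfl
  have e1 : ∀ k, mm (k + 1) = nx (mm k) (c (k + 1)) (hI k) := by
    intro k
    have := hmm (k + 1)
    rw [hs, hmm k] at this
    simp only [δ, dif_pos (hI k)] at this
    exact (Option.some.inj this).symm
  refine ⟨fun k => ?_, ?_, mm, hm0, hrm, fun k => ?_⟩
  · rw [hrm, hrm, e1]; exact (hnx _ _ (hI k)).1
  · rintro ⟨k, h | h⟩
    · exact hN k (Or.inl (h.trans (hrm k)))
    · apply hN k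
      rw [← hrm k, ← h]; exact hc k
  · rw [e1]; exact (hnx _ _ (hI k)).2.2.2

end Pool.Agent.H.MP_70f359_co
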