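import Pool.Agent.H.MP_70f359_co.Game

namespace Pool.Agent.H.MP_70f359_co

inductive W : Type
  | P (j : ℤ) : W
  | Q (j : ℤ) (k : ℕ) (x : Fin 6) : W

open W

def A : Fin 8 → Fin 8 → Bool :=
  ![![false,true,false,true,true,false,true,false], ![true,false,true,false,true,true,false,true],
    ![false,true,false,true,false,true,true,true], ![true,false,true,false,true,false,false,true],
    ![true,true,false,true,false,true,true,true], ![false,true,true,false,true,false,true,false],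
    ![true,false,true,false,true,true,false,false], ![false,true,true,true,true,false,false,false]]

def NF (a b : Fin 8) : Prop := a = b ∨ A a b = true

instance (a b : Fin 8) : Decidable (NF a b) := by unfold NF; infer_instance

def sv (j : ℤ) : ℕ → W
  | 0 => P (j + 1)
  | k + 1 => Q j k 1

def tv (j : ℤ) : ℕ → W
  | 0 => P j
  | k + 1 => Q j k 0

def e (j : ℤ) (k : ℕ) : Fin 8 → W :=
  ![sv j k, tv j k, Q j k 0, Q j k 1, Q j k 2, Q j k 3, Q j k 4, Q j k 5]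

lemma A_symm : ∀ a b, A a b = true → A b a = true := by decide
lemma A_irr : ∀ a, ¬ A a a = true := by decide

lemma e_eq {j j' : ℤ} {k k' : ℕ} {a a' : Fin 8} (h : e j k a = e j' k' a') :
    (j = j' ∧ k = k' ∧ a = a') ∨ (a = 0 ∧ a' = 3 ∧ j = j' ∧ k = k' + 1) ∨
    (a = 1 ∧ a' = 2 ∧ j = j' ∧ k = k' + 1) ∨ (a = 3 ∧ a' = 0 ∧ j = j' ∧ k' = k + 1) ∨
    (a = 2 ∧ a' = 1 ∧ j = j' ∧ k' = k + 1) ∨ (a = 0 ∧ a' = 1 ∧ j' = j + 1 ∧ k = 0 ∧ k' = 0) ∨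
    (a = 1 ∧ a' = 0 ∧ j = j' + 1 ∧ k = 0 ∧ k' = 0) := by
  fin_cases a <;> fin_cases a' <;> cases k <;> cases k' <;>
    simp [e, sv, tv] at h ⊢ <;> omega

def G : SimpleGraph W where
  Adj u v := ∃ j k a b, A a b = true ∧ u = e j k a ∧ v = e j k b
  symm := ⟨by
    rintro u v ⟨j, k, a, b, h, rfl, rfl⟩
    exact ⟨j, k, b, a, A_symm _ _ h, rfl, rfl⟩⟩
  loopless := ⟨by
    rintro u ⟨j, k, a, b, h, rfl, h2⟩
    rcases e_eq h2 with h3 | h3 | h3 | h3 | h3 | h3 | h3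
    · exact A_irr a (h3.2.2 ▸ h)
    all_goals omega⟩

lemma adj_e (j : ℤ) (k : ℕ) {a b : Fin 8} (h : A a b = true) : G.Adj (e j k a) (e j k b) :=
  ⟨j, k, a, b, h, rfl, rfl⟩

lemma step_e (j : ℤ) (k : ℕ) {a b : Fin 8} (h : NF a b) : Step G (e j k a) (e j k b) := by
  rcases h with rfl | h
  · exact Step.rfl' _
  · exact Or.inr (adj_e j k h)

lemma e03 (j : ℤ) (k : ℕ) : e j (k + 1) 0 = e j k 3 := rfl
lemma e12 (j : ℤ) (k : ℕ) : e j (k + 1) 1 = e j k 2 := rfl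
lemma e00 (j : ℤ) : e j 0 0 = P (j + 1) := rfl
lemma e01 (j : ℤ) : e j 0 1 = P j := rfl

lemma nbr {j : ℤ} {k : ℕ} {a : Fin 8} {v : W} (h : Step G (e j k a) v) :
    (∃ b, NF a b ∧ v = e j k b) ∨
    (a = 0 ∧ ∃ k' b, k = k' + 1 ∧ A 3 b = true ∧ v = e j k' b) ∨
    (a = 1 ∧ ∃ k' b, k = k' + 1 ∧ A 2 b = true ∧ v = e j k' b) ∨
    (a = 3 ∧ ∃ b, A 0 b = true ∧ v = e j (k + 1) b) ∨
    (a = 2 ∧ ∃ b, A 1 b = true ∧ v = e j (k + 1) b) ∨
    (a = 0 ∧ k = 0 ∧ ∃ b, A 1 b = true ∧ v = e (j + 1) 0 b) ∨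
    (a = 1 ∧ k = 0 ∧ ∃ b, A 0 b = true ∧ v = e (j - 1) 0 b) := by
  rcases h with rfl | ⟨j', k', a', b, h, h1, rfl⟩
  · exact Or.inl ⟨a, Or.inl rfl, rfl⟩
  rcases e_eq h1 with ⟨rfl, rfl, rfl⟩ | ⟨rfl, rfl, rfl, rfl⟩ | ⟨rfl, rfl, rfl, rfl⟩ |
    ⟨rfl, rfl, rfl, rfl⟩ | ⟨rfl, rfl, rfl, rfl⟩ | ⟨rfl, rfl, rfl, rfl, rfl⟩ | ⟨rfl, rfl, rfl, rfl, rfl⟩
  · exact Or.inl ⟨b, Or.inr h, rfl⟩
  · exact Or.inr (Or.inl ⟨rfl, k', b, rfl, h, rfl⟩)
  · exact Or.inr (Or.inr (Or.inl ⟨rfl, k', b, rfl, h, rfl⟩))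
  · exact Or.inr (Or.inr (Or.inr (Or.inl ⟨rfl, b, h, rfl⟩)))
  · exact Or.inr (Or.inr (Or.inr (Or.inr (Or.inl ⟨rfl, b, h, rfl⟩))))
  · exact Or.inr (Or.inr (Or.inr (Or.inr (Or.inr (Or.inl ⟨rfl, rfl, b, h, rfl⟩)))))
  · exact Or.inr (Or.inr (Or.inr (Or.inr (Or.inr (Or.inr ⟨rfl, rfl, b, h, by simp⟩)))))

def bl : W → ℤ
  | P j => j
  | Q j _ _ => j

def lev : W → ℕ
  | P _ => 0
  | Q _ k _ => k + 1

lemma bl_e (j : ℤ) (k : ℕ) (a : Fin 8) :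
    bl (e j k a) = j ∨ (k = 0 ∧ a = 0 ∧ bl (e j k a) = j + 1) := by
  fin_cases a <;> cases k <;> simp [e, sv, tv, bl]

lemma lev_e (j : ℤ) (k : ℕ) (a : Fin 8) :
    ((a = 0 ∨ a = 1) ∧ lev (e j k a) = k) ∨ (a ≠ 0 ∧ a ≠ 1 ∧ lev (e j k a) = k + 1) := by
  fin_cases a <;> cases k <;> simp [e, sv, tv, lev]

lemma rep (w : W) : ∃ j k a, a ≠ 0 ∧ w = e j k a := by
  cases w with
  | P j => exact ⟨j, 0, 1, by decide, rfl⟩
  | Q j k x =>
    fin_cases x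
    · exact ⟨j, k, 2, by decide, rfl⟩
    · exact ⟨j, k, 3, by decide, rfl⟩
    · exact ⟨j, k, 4, by decide, rfl⟩
    · exact ⟨j, k, 5, by decide, rfl⟩
    · exact ⟨j, k, 6, by decide, rfl⟩
    · exact ⟨j, k, 7, by decide, rfl⟩

/-- cut lemma -/
lemma cut {u v : W} (h : Step G u v) (hlt : bl u < bl v) : v = P (bl v) ∧ bl v = bl u + 1 := by
  rcases h with rfl | ⟨j, k, a, b, h, rfl, rfl⟩
  · omega
  have h1 := bl_e j k a
  rcases bl_e j k b with h2 | ⟨rfl, rfl, h2⟩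
  · omega
  · exact ⟨rfl, by omega⟩

lemma lev_step {u v : W} (h : Step G u v) : lev v ≤ lev u + 1 ∧ (2 ≤ lev v → bl u = bl v) := by
  rcases h with rfl | ⟨j, k, a, b, h, rfl, rfl⟩
  · omega
  have := lev_e j k a
  have := lev_e j k b
  have := bl_e j k a
  have := bl_e j k b
  omega

lemma induced {j : ℤ} {k : ℕ} {a b : Fin 8} (h : Step G (e j k a) (e j k b)) : NF a b := by
  rcases nbr h with ⟨b', h1, h2⟩ | ⟨rfl, k', b', rfl, h1, h2⟩ | ⟨rfl, k', b', rfl, h1, h2⟩ |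
    ⟨rfl, b', h1, h2⟩ | ⟨rfl, b', h1, h2⟩ | ⟨rfl, rfl, b', h1, h2⟩ | ⟨rfl, rfl, b', h1, h2⟩
  · rcases e_eq h2 with h3 | h3 | h3 | h3 | h3 | h3 | h3
    · exact h3.2.2 ▸ h1
    all_goals omega
  all_goals
    rcases e_eq h2 with h3 | h3 | h3 | h3 | h3 | h3 | h3
    all_goals first
      | omega
      | (obtain ⟨rfl, rfl, -⟩ := h3; decide)

lemma R2 : ∀ w c : Fin 8, w ≠ 0 → c ≠ w → ∃ w', NF w w' ∧ ¬ NF c w' := by decide
lemma R2u : ∀ w : Fin 8, ∃ w', NF w w' ∧ w' ≠ 0 ∧ w' ≠ 1 := by decide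
lemma R2d : ∀ w : Fin 8, ∃ w', NF w w' ∧ w' ≠ 2 ∧ w' ≠ 3 := by decide

lemma evade (j : ℤ) (k : ℕ) (a : Fin 8) (ha : a ≠ 0) (c : W) (hc : c ≠ e j k a) :
    ∃ b, NF a b ∧ ¬ Step G c (e j k b) := by
  by_cases h : ∃ x, c = e j k x
  · obtain ⟨x, rfl⟩ := h
    obtain ⟨b, h1, h2⟩ := R2 a x ha (fun h => hc (by rw [h]))
    exact ⟨b, h1, fun h => h2 (induced h)⟩
  · by_cases hl : k + 2 ≤ lev c
    · obtain ⟨b, h1, h2, h3⟩ := R2d a
      refine ⟨b, h1, fun hs => ?_⟩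
      rcases nbr hs.symm with ⟨b', -, h5⟩ | ⟨-, k', b', rfl, -, rfl⟩ | ⟨-, k', b', rfl, -, rfl⟩ |
        ⟨h4, -⟩ | ⟨h4, -⟩ | ⟨-, rfl, b', -, rfl⟩ | ⟨-, rfl, b', -, rfl⟩
      · exact h ⟨_, h5⟩
      · have := lev_e j k' b'; omega
      · have := lev_e j k' b'; omega
      · exact h3 h4
      · exact h2 h4
      · have := lev_e (j + 1) 0 b'; omega
      · have := lev_e (j - 1) 0 b'; omega
    · obtain ⟨b, h1, h2, h3⟩ := R2u a
      refine ⟨b, h1, fun hs => ?_⟩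
      rcases nbr hs.symm with ⟨b', -, h5⟩ | ⟨h4, -⟩ | ⟨h4, -⟩ |
        ⟨-, b', -, rfl⟩ | ⟨-, b', -, rfl⟩ | ⟨h4, -⟩ | ⟨h4, -⟩
      · exact h ⟨_, h5⟩
      · exact h2 h4
      · exact h3 h4
      · rcases lev_e j (k + 1) b' with ⟨rfl | rfl, -⟩ | h6
        · exact h ⟨3, rfl⟩
        · exact h ⟨2, rfl⟩
        · omega
      · rcases lev_e j (k + 1) b' with ⟨rfl | rfl, -⟩ | h6
        · exact h ⟨3, rfl⟩
        · exact h ⟨2, rfl⟩
        · omega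
      · exact h2 h4
      · exact h3 h4

lemma adjP (j : ℤ) : G.Adj (P j) (P (j + 1)) := adj_e j 0 (a := 1) (b := 0) (by decide)

lemma two_step : ∀ a : Fin 8, ∃ b, NF 1 b ∧ NF b a := by decide

lemma Step.reach {V : Type} {H : SimpleGraph V} {u v : V} (h : Step H u v) : H.Reachable u v := by
  rcases h with rfl | h
  · exact SimpleGraph.Reachable.refl _
  · exact h.reachable

lemma conn : G.Connected := by
  have h1 : ∀ j : ℤ, G.Reachable (P 0) (P j) := by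
    intro j
    induction j using Int.induction_on with
    | zero => exact SimpleGraph.Reachable.refl _
    | succ i ih => exact ih.trans (adjP i).reachable
    | pred i ih =>
      have := adjP (-(i : ℤ) - 1)
      rw [sub_add_cancel] at this
      exact ih.trans this.symm.reachable
  have h2 : ∀ j k a, G.Reachable (e j k 1) (e j k a) := by
    intro j k a
    obtain ⟨b, hb1, hb2⟩ := two_step a
    exact (step_e j k hb1).reach.trans (step_e j k hb2).reach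
  have h3 : ∀ j k, G.Reachable (P 0) (e j k 1) := by
    intro j k
    induction k with
    | zero => exact h1 j
    | succ k ih => exact ih.trans (h2 j k 2)
  have h4 : ∀ w, G.Reachable (P 0) w := by
    intro w
    obtain ⟨j, k, a, -, rfl⟩ := rep w
    exact (h3 j k).trans (h2 j k a)
  have : Nonempty W := ⟨P 0⟩
  exact ⟨fun u v => (h4 u).symm.trans (h4 v)⟩

end Pool.Agent.H.MP_70f359_co
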