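import Pool.Agent.H.MP_70f359_co.Graph

namespace Pool.Agent.H.MP_70f359_co

open W

inductive RM : Type
  | S : RM
  | D (b : Bool) (k : ℕ) : RM
  | E (b : Bool) (w : W) : RM
  | X : RM
  | F (w : W) : RM

lemma bl_P (j : ℤ) : bl (P j) = j := rfl

def U (j : ℤ) (N : ℕ) (w : W) : Prop := ∃ i a, i < N ∧ w = e j i a

lemma stay_left {j : ℤ} {c c' : W} (h : bl c ≤ j) (hne : c' ≠ P (j + 1)) (hs : Step G c c') :
    bl c' ≤ j := by
  by_contra hlt
  obtain ⟨h1, h2⟩ := cut hs (by omega)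
  apply hne
  rw [h1]
  congr 1
  omega

lemma bl_step {u v : W} (h : Step G u v) : bl v ≤ bl u + 1 := by
  by_contra hlt
  obtain ⟨-, h2⟩ := cut h (by omega)
  omega

lemma evadeU {j : ℤ} {N : ℕ} {w c : W} (hU : U j N w) (hw : w ≠ P (j + 1)) (hc : c ≠ w) :
    (∃ w', U j N w' ∧ w' ≠ P (j + 1) ∧ Step G w w' ∧ ¬ Step G c w') ∨
    (Step G w (P (j + 1)) ∧ ¬ Step G c (P (j + 1)) ∧ bl c ≤ j) := by
  by_cases h : ∃ w', U j N w' ∧ w' ≠ P (j + 1) ∧ Step G w w' ∧ ¬ Step G c w'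
  · exact Or.inl h
  right
  have hcw : Step G c w := by
    by_contra h1
    exact h ⟨w, hU, hw, Step.rfl' _, h1⟩
  obtain ⟨i, a, hi, rfl⟩ := hU
  have h2 : ∃ i' a', i' < N ∧ a' ≠ 0 ∧ e j i a = e j i' a' := by
    by_cases ha : a = 0
    · subst ha
      cases i with
      | zero => exact absurd rfl hw
      | succ i => exact ⟨i, 3, by omega, by decide, rfl⟩
    · exact ⟨i, a, hi, ha, rfl⟩
  obtain ⟨i', a', hi', ha', h3⟩ := h2
  rw [h3] at hw hc hcw h ⊢
  obtain ⟨b, hb, hb2⟩ := evade j i' a' ha' c hc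
  have h4 : e j i' b = P (j + 1) := by
    by_contra h5
    exact h ⟨_, ⟨i', b, hi', rfl⟩, h5, step_e j i' hb, hb2⟩
  refine ⟨h4 ▸ step_e j i' hb, h4 ▸ hb2, ?_⟩
  refine stay_left (c := e j i' a') ?_ ?_ hcw.symm
  · have := bl_e j i' a'
    omega
  · rintro rfl
    exact hb2 (h4 ▸ Step.rfl' _)

lemma A3 : ∀ b : Fin 8, NF 3 b → b ≠ 1 := by decide

lemma descend {j : ℤ} {k : ℕ} {c : W} (h1 : c ≠ e j k 0) (h2 : lev c ≤ k ∨ bl c ≠ j) :
    ¬ Step G c (e j (k + 1) 0) := by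
  intro hs
  rw [e03] at hs
  rcases nbr hs.symm with ⟨b, hb, rfl⟩ | ⟨h4, -⟩ | ⟨h4, -⟩ |
    ⟨-, b, -, rfl⟩ | ⟨h4, -⟩ | ⟨h4, -⟩ | ⟨h4, -⟩
  · have h5 := A3 b hb
    have h6 : b ≠ 0 := fun h => h1 (by rw [h])
    have := lev_e j k b
    have := bl_e j k b
    omega
  · exact absurd h4 (by decide)
  · exact absurd h4 (by decide)
  · have := lev_e j (k + 1) b
    have := bl_e j (k + 1) b
    omega
  · exact absurd h4 (by decide)
  · exact absurd h4 (by decide)
  · exact absurd h4 (by decide)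

section
variable (J : ℤ) (m n : ℕ)

def jb (b : Bool) : ℤ := if b then J else J - 1
def Nb (b : Bool) : ℕ := if b then n else m
def ex (b : Bool) : RM := if b then .F (P (J + 1)) else .X

def rpos : RM → W
  | .S => P (J + 1)
  | .D b k => e (jb J b) k 0
  | .E _ w => w
  | .X => P J
  | .F w => w

def rinv : RM → W → Prop
  | .S, c => J + 2 ≤ bl c
  | .D b k, c => k ≤ Nb m n b ∧ c ≠ e (jb J b) k 0 ∧ (lev c ≤ k ∨ bl c ≠ jb J b)
  | .E b w, c => U (jb J b) (Nb m n b) w ∧ w ≠ P (jb J b + 1) ∧ c ≠ w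
  | .X, c => bl c ≤ J - 1
  | .F w, c => c ≠ w

def prog : RM → RM → Prop
  | .S, s => s = .D false 0
  | .D b k, s => (k < Nb m n b ∧ s = .D b (k + 1)) ∨
      (k = Nb m n b ∧ (s = ex J b ∨ ∃ w, U (jb J b) (Nb m n b) w ∧ s = .E b w))
  | .E b _, s => s = ex J b ∨ ∃ w, U (jb J b) (Nb m n b) w ∧ s = .E b w
  | .X, s => s = .D true 0
  | .F _, s => ∃ w, s = .F w

lemma estep (b : Bool) {w c : W} (hU : U (jb J b) (Nb m n b) w) (hw : w ≠ P (jb J b + 1))
    (hc : c ≠ w) : ∃ s, Step G w (rpos J s) ∧ ¬ Step G c (rpos J s) ∧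
      (∀ c', Step G c c' → rinv J m n s c') ∧
      (s = ex J b ∨ ∃ w, U (jb J b) (Nb m n b) w ∧ s = .E b w) := by
  rcases evadeU hU hw hc with ⟨w', h1, h2, h3, h4⟩ | ⟨h1, h2, h3⟩
  · refine ⟨.E b w', h3, h4, fun c' hc' => ⟨h1, h2, ?_⟩, Or.inr ⟨w', h1, rfl⟩⟩
    rintro rfl
    exact h4 hc'
  · cases b with
    | false =>
      simp only [jb, Bool.false_eq_true, if_false, sub_add_cancel] at h1 h2 h3
      refine ⟨.X, h1, h2, fun c' hc' => ?_, Or.inl rfl⟩
      refine stay_left h3 ?_ hc'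
      rw [sub_add_cancel]
      rintro rfl
      exact h2 hc'
    | true =>
      simp only [jb, if_true] at h1 h2 h3
      refine ⟨.F (P (J + 1)), h1, h2, fun c' hc' => ?_, Or.inl rfl⟩
      rintro rfl
      exact h2 hc'

lemma rstep (hm : 0 < m) (hn : 0 < n) (s : RM) (c : W) (hi : rinv J m n s c) :
    ∃ s', Step G (rpos J s) (rpos J s') ∧ ¬ Step G c (rpos J s') ∧
      (∀ c', Step G c c' → rinv J m n s' c') ∧ prog J m n s s' := by
  cases s with
  | S =>
    simp only [rinv] at hi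
    have h0 : rpos J (.D false 0) = P J := by
      simp [rpos, jb, e00]
    refine ⟨.D false 0, ?_, ?_, fun c' hc' => ⟨Nat.zero_le _, ?_, Or.inr ?_⟩, rfl⟩
    · rw [h0]
      exact Or.inr (adjP J).symm
    · rw [h0]
      intro h
      have := bl_step h.symm
      simp only [bl_P] at this
      omega
    · have := bl_step hc'.symm
      rintro rfl
      have := bl_e (jb J false) 0 0
      simp only [jb, Bool.false_eq_true, if_false] at *
      omega
    · have := bl_step hc'.symm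
      simp only [jb, Bool.false_eq_true, if_false]
      omega
  | D b k =>
    obtain ⟨h1, h2, h3⟩ := hi
    by_cases hk : k < Nb m n b
    · have h4 := descend h2 h3
      refine ⟨.D b (k + 1), step_e (jb J b) k (a := 0) (b := 3) (by decide), h4,
        fun c' hc' => ⟨hk, ?_, ?_⟩, Or.inl ⟨hk, rfl⟩⟩
      · rintro rfl
        exact h4 hc'
      · have := lev_step hc'
        omega
    · have hk' : k = Nb m n b := by omega
      have hN : 0 < Nb m n b := by
        unfold Nb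
        split_ifs <;> assumption
      obtain ⟨k', rfl⟩ : ∃ k', k = k' + 1 := ⟨k - 1, by omega⟩
      obtain ⟨s, h5, h6, h7, h8⟩ := estep J m n b (w := e (jb J b) (k' + 1) 0) (c := c)
        ⟨k', 3, by omega, rfl⟩ (by simp [e, sv]) h2
      exact ⟨s, h5, h6, h7, Or.inr ⟨hk', h8⟩⟩
  | E b w =>
    obtain ⟨h1, h2, h3⟩ := hi
    exact estep J m n b h1 h2 h3
  | X =>
    simp only [rinv] at hi
    have h0 : rpos J (.D true 0) = P (J + 1) := rfl
    refine ⟨.D true 0, Or.inr (adjP J), ?_, fun c' hc' => ⟨Nat.zero_le _, ?_, ?_⟩, rfl⟩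
    · rw [h0]
      intro h
      have := bl_step h
      simp only [bl_P] at this
      omega
    · have := bl_step hc'
      rintro rfl
      simp only [jb, if_true, e00, bl_P] at this
      omega
    · simp only [jb, if_true]
      by_cases h : bl c' = J
      · left
        obtain ⟨h1, -⟩ := cut hc' (by omega)
        rw [h1]
        rfl
      · exact Or.inr h
  | F w =>
    obtain ⟨j, k, a, ha, rfl⟩ := rep w
    obtain ⟨b, hb, hb2⟩ := evade j k a ha c hi
    refine ⟨.F (e j k b), step_e j k hb, hb2, fun c' hc' => ?_, ⟨_, rfl⟩⟩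
    rintro rfl
    exact hb2 hc'

def tinv (r : ℕ → W) (τ : ℕ) : RM → Prop
  | .S => True
  | .D false k => k ≤ τ ∧ k ≤ m
  | .E false w => m ≤ τ ∧ U (J - 1) m w
  | .X => m ≤ τ
  | .D true k => k ≤ n ∧ ∃ t, m ≤ t ∧ t + k ≤ τ ∧ r t = P (J + 1)
  | .E true w => U J n w ∧ ∃ t, m ≤ t ∧ t + n ≤ τ ∧ r t = P (J + 1)
  | .F _ => ∃ t s, m ≤ t ∧ t + n ≤ s ∧ r t = P (J + 1) ∧ r s = P (J + 1)

lemma tstep (r : ℕ → W) (τ : ℕ) (s s' : RM) (h : tinv J m n r τ s) (hp : prog J m n s s')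
    (hr : r (τ + 1) = rpos J s') : tinv J m n r (τ + 1) s' := by
  cases s with
  | S =>
    obtain rfl : s' = .D false 0 := hp
    exact ⟨Nat.zero_le _, Nat.zero_le _⟩
  | D b k =>
    cases b with
    | false =>
      obtain ⟨h1, h2⟩ := h
      rcases hp with ⟨h3, rfl⟩ | ⟨h3, rfl | ⟨w, hw, rfl⟩⟩
      · exact ⟨by omega, h3⟩
      · change m ≤ τ + 1
        change k = m at h3
        omega
      · change k = m at h3
        exact ⟨by omega, hw⟩
    | true =>
      obtain ⟨h1, t, h2, h4, h5⟩ := h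
      rcases hp with ⟨h3, rfl⟩ | ⟨h3, rfl | ⟨w, hw, rfl⟩⟩
      · exact ⟨h3, t, h2, by omega, h5⟩
      · change k = n at h3
        exact ⟨t, τ + 1, h2, by omega, h5, hr⟩
      · change k = n at h3
        exact ⟨hw, t, h2, by omega, h5⟩
  | E b w =>
    cases b with
    | false =>
      obtain ⟨h1, h2⟩ := h
      rcases hp with rfl | ⟨w, hw, rfl⟩
      · change m ≤ τ + 1
        omega
      · exact ⟨by omega, hw⟩
    | true =>
      obtain ⟨h1, t, h2, h4, h5⟩ := h
      rcases hp with rfl | ⟨w, hw, rfl⟩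
      · exact ⟨t, τ + 1, h2, by omega, h5, hr⟩
      · exact ⟨hw, t, h2, by omega, h5⟩
  | X =>
    obtain rfl : s' = .D true 0 := hp
    change m ≤ τ at h
    exact ⟨Nat.zero_le _, τ + 1, by omega, le_rfl, hr⟩
  | F w =>
    obtain ⟨w', rfl⟩ := hp
    exact h

end

theorem dlr : DoubleLongReturn G := by
  intro c0
  refine ⟨P (bl c0 - 3 + 1), fun m n hm hn => ?_⟩
  set J := bl c0 - 3 with hJ
  obtain ⟨g, hg⟩ := rob_machine (G := G) (rpos J) (rinv J m n) (prog J m n) .S c0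
    (by
      intro h
      have := bl_step h.symm
      simp only [rpos, bl_P] at this
      omega)
    (by
      intro c' hc'
      have := bl_step hc'.symm
      change J + 2 ≤ bl c'
      omega)
    (rstep J m n hm hn)
  refine ⟨g, fun c hc hc0 r hr0 hr => ?_⟩
  obtain ⟨h1, h2, mm, hm0, hrm, hp⟩ := hg c hc hc0 r hr0 hr
  refine ⟨h1, h2, ?_⟩
  have hT : ∀ τ, tinv J m n r τ (mm τ) := by
    intro τ
    induction τ with
    | zero => rw [hm0]; trivial
    | succ τ ih => exact tstep J m n r τ _ _ ih (hp τ) (hrm _)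
  by_cases hF : ∃ τ w, mm τ = .F w
  · obtain ⟨τ, w, h⟩ := hF
    have := hT τ
    rw [h] at this
    exact Or.inr this
  · left
    refine (Set.finite_range (fun p : Bool × Fin (m + n + 1) × Fin 8 =>
      e (jb J p.1) p.2.1 p.2.2)).subset ?_
    rintro _ ⟨τ, rfl⟩
    have h3 := hT τ
    rw [hrm τ]
    cases hs : mm τ with
    | S => exact ⟨(true, ⟨0, by omega⟩, 0), rfl⟩
    | D b k =>
      rw [hs] at h3
      cases b with
      | false => exact ⟨(false, ⟨k, by have := h3.2; omega⟩, 0), rfl⟩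
      | true => exact ⟨(true, ⟨k, by have := h3.1; omega⟩, 0), rfl⟩
    | E b w =>
      rw [hs] at h3
      cases b with
      | false =>
        obtain ⟨-, i, a, hi, rfl⟩ := h3
        exact ⟨(false, ⟨i, by omega⟩, a), rfl⟩
      | true =>
        obtain ⟨⟨i, a, hi, rfl⟩, -⟩ := h3
        exact ⟨(true, ⟨i, by omega⟩, a), rfl⟩
    | X => exact ⟨(true, ⟨0, by omega⟩, 1), rfl⟩
    | F w => exact absurd ⟨τ, w, hs⟩ hF

end Pool.Agent.H.MP_70f359_co
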